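import Pool.Agent.W186.LH.Fin

set_option autoImplicit false

/-!
# MP_4e5e8a_nt: the Lindelof hypothesis and zeros of the de Bruijn-Newman family

`H t z` is the integral of `exp (t * u ^ 2) * Phi u * cos (z * u)` over `u > 0`, so that
`H 0 z` is the Riemann xi function at `1/2 + i z / 2` up to a constant; it is known that for every
`t > 0` all but finitely many zeros of `H t` are real. We show that the growth of zeta in the right half
of the critical strip can be read off exactly from the number of zeros of `H t` away from the real axis,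
for small `t`, at the heights `exp (κ / t)` and above: these numbers are `o (log T)` if and only if
`zeta (σ + i t)` is `O (t ^ ((κ / 4 - (σ - 1/2)) ^ 2 / κ + ε))` for `1/2 ≤ σ ≤ 1/2 + κ / 4` and
`O (t ^ ε)` to the right of that. In particular the Lindelof hypothesis holds if and only if this
is the case for every `κ > 0`, and the condition for one `κ` gives
`zeta (1/2 + i t) = O (t ^ (κ / 16 + ε))`. The condition holds for `κ ≥ 4`.
-/

namespace Pool.Agent.Results.MP_4e5e8a_nt.HeatFlowZeroCount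

open Complex

/-- The de Bruijn-Newman kernel. -/
noncomputable def Phi (u : ℝ) : ℝ := ∑' n : ℕ,
  (2 * Real.pi ^ 2 * ((n : ℝ) + 1) ^ 4 * Real.exp (9 * u) -
    3 * Real.pi * ((n : ℝ) + 1) ^ 2 * Real.exp (5 * u)) *
    Real.exp (-(Real.pi * ((n : ℝ) + 1) ^ 2 * Real.exp (4 * u)))

/-- The de Bruijn-Newman family: the integral of `exp (t u²) Φ(u) cos (z u)` over `u > 0`. -/
noncomputable def H (t : ℝ) (z : ℂ) : ℂ :=
  ∫ u in Set.Ioi (0 : ℝ), ((Real.exp (t * u ^ 2) * Phi u : ℝ) : ℂ) * Complex.cos (z * u)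

/-- For all positive `δ` and `ε`, all sufficiently small `t > 0` and all `T ≥ exp (κ / t)`: any finitely
many zeros `z` of `H t` with `|Re z - T| ≤ 1` and `|Im z| ≥ δ` have total multiplicity at
most `ε log T`. -/
def FewZeros (κ : ℝ) : Prop := ∀ δ ε : ℝ, 0 < δ → 0 < ε → ∃ t0 : ℝ, 0 < t0 ∧ ∀ t : ℝ, 0 < t → t < t0 →
  ∀ T : ℝ, Real.exp (κ / t) ≤ T → ∀ S : Finset ℂ,
    (∀ z ∈ S, H t z = 0 ∧ |z.re - T| ≤ 1 ∧ δ ≤ |z.im|) →
    ∑ z ∈ S, (analyticOrderNatAt (H t) z : ℝ) ≤ ε * Real.log T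

/-- For every `ε > 0`: `|ζ(σ + i t)| ≤ C |t| ^ (μ + ε)` for all real `t` with `|t| ≥ 1`. -/
def Exponent (σ μ : ℝ) : Prop := ∀ ε : ℝ, 0 < ε → ∃ C : ℝ, ∀ t : ℝ, 1 ≤ |t| →
  ‖riemannZeta (σ + t * I)‖ ≤ C * |t| ^ (μ + ε)

/-- The Lindelof hypothesis. -/
def Lindelof : Prop := ∀ ε : ℝ, 0 < ε → ∃ C : ℝ, ∀ t : ℝ,
  ‖riemannZeta (1 / 2 + t * I)‖ ≤ C * (1 + |t|) ^ ε

theorem result :
    (Lindelof ↔ ∀ κ : ℝ, 0 < κ → FewZeros κ) ∧
    (∀ κ : ℝ, 0 < κ → (FewZeros κ ↔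
      ∀ σ : ℝ, 1 / 2 ≤ σ → σ ≤ 1 → Exponent σ (max (κ / 4 - (σ - 1 / 2)) 0 ^ 2 / κ))) ∧
    (∀ κ : ℝ, 4 ≤ κ → FewZeros κ) :=
  ⟨Pool.Agent.W186.LH.lh_iff, fun _ hκ => Pool.Agent.W186.LH.few_iff hκ,
    fun _ hκ => Pool.Agent.W186.LH.few_four hκ⟩

end Pool.Agent.Results.MP_4e5e8a_nt.HeatFlowZeroCount
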