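import Pool.Agent.W173.OS.N

set_option autoImplicit false

open scoped ArithmeticFunction

namespace Pool.Agent.Results.MP_4e5e8a_nt.OneSidedThinSets

/-- The alternating function `n ↦ (-1)^(n+1)` (for `n ≥ 1`). -/
def alt : ArithmeticFunction ℤ := ⟨fun n => if n = 0 then 0 else (-1) ^ (n + 1), by simp⟩

/-- `S k x`: the sum over `n ≤ x` of the `k`-fold Dirichlet convolution of the alternating function, i.e.
of `(-1)^(a_1 + ... + a_k + k)` over all `(a_1, ..., a_k)` with product at most `x`. Its generating Dirichlet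
series is `((1 - 2^(1-s)) ζ(s))^k`. -/
noncomputable def S (k : ℕ) (x : ℝ) : ℝ := ∑ n ∈ Finset.Icc 1 ⌊x⌋₊, (((alt ^ k) n : ℤ) : ℝ)

/-- The Lindelöf hypothesis. -/
def LindelofHypothesis : Prop :=
  ∀ ε : ℝ, 0 < ε → ∃ C : ℝ, ∀ t : ℝ, ‖riemannZeta (1 / 2 + t * Complex.I)‖ ≤ C * (1 + |t|) ^ ε

/-- The Lindelöf bound for `ζ` in the half plane `Re s ≥ σ`. -/
def LindelofIn (σ : ℝ) : Prop :=
  ∀ ε : ℝ, 0 < ε → ∃ C : ℝ, ∀ s : ℂ, σ ≤ s.re → 1 ≤ |s.im| → ‖riemannZeta s‖ ≤ C * |s.im| ^ ε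

/-- The Lindelöf abscissa: the infimum of the `σ ≥ 1/2` with the Lindelöf bound in `Re s ≥ σ`. -/
noncomputable def Lam : ℝ := sInf {σ : ℝ | 1 / 2 ≤ σ ∧ LindelofIn σ}

/-- For some `α > 0` the set `A` meets every interval `[x, x + x^(1-α)]` with `x` large. -/
def PolyDense (A : Set ℕ) : Prop :=
  ∃ α : ℝ, 0 < α ∧ ∃ X : ℝ, ∀ x : ℝ, X ≤ x → ∃ n ∈ A, x ≤ n ∧ (n : ℝ) ≤ x + x ^ (1 - α)

/-- **The Lindelöf hypothesis and one-sided bounds on thin sets.**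
(1) If the Lindelöf hypothesis fails, then `Λ > 1/2` and for all `α, ε > 0` and every large `k` there are
arbitrarily large `x` with `S k y ≥ x^(Λ-ε)` on all of `[x, x + x^(1-α)]`, and arbitrarily large `x` with
`S k y ≤ -x^(Λ-ε)` on all of `[x, x + x^(1-α)]`.
(2) Hence the hypothesis is equivalent to the one-sided bounds `τ_k S_k(n) ≤ C_δ n^(1/2+δ)`, for infinitely
many `k` and only for the integers `n` of one polynomially dense set, with any signs `τ_k = ±1`;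
(3) for instance for the `m`-th powers, for any `m`. -/
theorem result :
    (¬ LindelofHypothesis → 1 / 2 < Lam ∧ ∀ α ε : ℝ, 0 < α → 0 < ε →
      ∃ k₀ : ℕ, ∀ k : ℕ, k₀ ≤ k → ∀ τ : ℝ, (τ = 1 ∨ τ = -1) → ∀ X : ℝ,
        ∃ x : ℝ, X ≤ x ∧ 1 ≤ x ∧ ∀ y : ℝ, x ≤ y → y ≤ x + x ^ (1 - α) → x ^ (Lam - ε) ≤ τ * S k y) ∧
    (∀ A : Set ℕ, PolyDense A → ∀ τ : ℕ → ℝ, (∀ k, τ k = 1 ∨ τ k = -1) →
      (LindelofHypothesis ↔
        ∀ K : ℕ, ∃ k : ℕ, K ≤ k ∧ ∀ δ : ℝ, 0 < δ → ∃ C : ℝ, ∀ n ∈ A,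
          τ k * S k n ≤ C * (n : ℝ) ^ (1 / 2 + δ))) ∧
    (∀ m : ℕ, 1 ≤ m → PolyDense {n | ∃ j : ℕ, n = j ^ m}) := by
  refine ⟨?_, ?_, ?_⟩
  · intro h
    have hL : (1 : ℝ) / 2 < Lam := by
      have h1 : Lam = W173.OS.lam := W173.OS.Lam_eq
      rw [h1]
      refine lt_of_le_of_ne W173.OS.half_le_lam fun h2 => h (W173.OS.LH_iff_lam.mpr h2.symm)
    refine ⟨hL, fun α ε hα hε => ?_⟩
    have h1 : Lam = W173.OS.lam := W173.OS.Lam_eq
    rw [h1] at hL ⊢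
    exact W173.OS.sk_persist hα hε hL
  · intro A hA τ hτ
    constructor
    · intro h K
      refine ⟨K, le_rfl, fun δ hδ => ?_⟩
      obtain ⟨C, hC⟩ := W173.OS.bound_of_LH h K hδ
      refine ⟨C, fun n _ => le_trans ?_ (hC n)⟩
      rcases hτ K with h1 | h1
      · rw [h1, one_mul]; exact le_abs_self _
      · rw [h1, neg_one_mul]; exact neg_le_abs _
    · intro h
      exact W173.OS.LH_of_onesided hA hτ h
  · intro m hm
    exact W173.OS.polyDense_pow hm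

end Pool.Agent.Results.MP_4e5e8a_nt.OneSidedThinSets
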