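import Mathlib
import Pool.Agent.W188.Ray.A5

/-!
# The Lindelöf hypothesis and the points of the critical curve on one ray

Let `u ≠ 0` be any complex number.  We prove that the Lindelöf hypothesis holds if and only if the points at
which the curve `t ↦ ζ(1/2 + it)` meets the ray `{r u : r > 0}` are `O(t^ε)` for every `ε > 0`.  In particular
(`u = -1`) it is equivalent to the one-sided bound `ζ(1/2 + it) ≥ - C t^ε` at the points `t` at which
`ζ(1/2 + it)` is real (the Gram points and the zeros).

The quantitative form: there is a constant `C` such that for all large `T` with `|ζ(1/2 + iT)| ≥ C log T` and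
for EVERY direction `u`, `|u| = 1`, there is a point `v` with `|v - T| ≤ C log log T` at which
`ζ(1/2 + iv) = r u` with `r ≥ |ζ(1/2 + iT)| / (C log T)`: near every large value of zeta on the critical line
there are large values in every direction.

Proof.  Let `X` be `conj u ^ 2` times the factor of the functional equation, so that `f = conj u * ζ` satisfies
`f = X conj f` on the critical line, and `f` is real exactly where `X = 1` or `f = 0`.  If `f ≤ M - 1` at the
points of a window at which `X = 1`, then `(M - f) / (1 - r X)`, `r` slightly less than `1`, has a non-negative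
real part on the critical line, even after multiplication by the kernel `exp (- cos ((s - 1/2 - iT) / 4))`,
which is positive on the line and decays doubly exponentially.  By the maximum principle the real part is at
least `- C M` to the right of the line, and the Borel-Carathéodory theorem gives
`ζ(1/2 + η + iT) = O(M / η)`.
-/

set_option autoImplicit false

open Filter Topology Set

namespace Pool.Agent.Results.MP_4e5e8a_nt.RayValues

/-- The Lindelöf hypothesis. -/
def Lindelof : Prop := ∀ ε : ℝ, 0 < ε → ∃ C : ℝ, ∀ t : ℝ,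
  ‖riemannZeta (1 / 2 + t * Complex.I)‖ ≤ C * (1 + |t|) ^ ε

/-- The points `ζ(1/2 + it)`, `t ≥ 0`, on the ray with direction `u` are `O(t^ε)` for all `ε > 0`. -/
def RayBound (u : ℂ) : Prop := ∀ ε : ℝ, 0 < ε → ∃ C : ℝ, ∀ t r : ℝ, 0 ≤ t →
  riemannZeta (1 / 2 + t * Complex.I) = r * u → r ≤ C * (1 + t) ^ ε

theorem result :
    (∃ C T₀ : ℝ, 0 < C ∧ ∀ T : ℝ, T₀ ≤ T → ∀ u : ℂ, ‖u‖ = 1 →
      C * Real.log T ≤ ‖riemannZeta (1 / 2 + T * Complex.I)‖ →
      ∃ v r : ℝ, |v - T| ≤ C * Real.log (Real.log T) ∧
        riemannZeta (1 / 2 + v * Complex.I) = r * u ∧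
        ‖riemannZeta (1 / 2 + T * Complex.I)‖ ≤ C * Real.log T * r) ∧
    (∀ u : ℂ, u ≠ 0 → (Lindelof ↔ RayBound u)) := by
  obtain ⟨C, T₀, hC, hT₀, hdir⟩ := Pool.Agent.W188.Ray.directions
  refine ⟨⟨C, T₀, hC, fun T hT u hu h => hdir T hT u hu h⟩, fun u hu => ⟨?_, ?_⟩⟩
  · -- the easy direction
    intro h ε hε
    obtain ⟨D, hD⟩ := h ε hε
    refine ⟨D / ‖u‖, fun t r ht hr => ?_⟩
    have hu0 : 0 < ‖u‖ := norm_pos_iff.2 hu
    have h1 := hD t
    rw [hr, norm_mul, Complex.norm_real, Real.norm_eq_abs, abs_of_nonneg ht] at h1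
    rw [div_mul_eq_mul_div, le_div_iff₀ hu0]
    exact (mul_le_mul_of_nonneg_right (le_abs_self r) hu0.le).trans h1
  · -- the main direction
    intro h ε hε
    obtain ⟨D, hD⟩ := h (ε / 2) (by positivity)
    set u' : ℂ := u / (‖u‖ : ℂ) with hu'
    have hu0 : 0 < ‖u‖ := norm_pos_iff.2 hu
    have hu0' : (‖u‖ : ℂ) ≠ 0 := by exact_mod_cast hu0.ne'
    have hu'n : ‖u'‖ = 1 := by
      rw [hu', norm_div, Complex.norm_real, Real.norm_of_nonneg hu0.le, div_self hu0.ne']
    have hlogsmall : ∀ᶠ T : ℝ in atTop, Real.log T ≤ T ^ (ε / 2) := by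
      have h1 := (isLittleO_log_rpow_atTop (by positivity : 0 < ε / 2)).bound
        (by norm_num : (0 : ℝ) < 1)
      filter_upwards [h1, eventually_ge_atTop 1] with T hT hT1
      rw [one_mul, Real.norm_of_nonneg (Real.log_nonneg hT1),
        Real.norm_of_nonneg (by positivity)] at hT
      exact hT
    have hwin : ∀ᶠ T : ℝ in atTop, C * Real.log (Real.log T) ≤ T := by
      have h1 := Real.isLittleO_log_id_atTop.bound (by positivity : (0 : ℝ) < 1 / (C + 1))
      filter_upwards [h1, eventually_ge_atTop 10] with T hT hT1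
      have hl : 1 ≤ Real.log T := by
        rw [Real.le_log_iff_exp_le (by linarith)]
        have := Real.exp_one_lt_d9
        linarith
      rw [id, Real.norm_of_nonneg (by linarith), Real.norm_of_nonneg (by linarith),
        div_mul_eq_mul_div, one_mul, le_div_iff₀ (by linarith)] at hT
      have h2 : Real.log (Real.log T) ≤ Real.log T := by
        have := Real.log_le_sub_one_of_pos (x := Real.log T) (by linarith)
        linarith
      nlinarith
    obtain ⟨T₁, hT₁⟩ := eventually_atTop.1 (hlogsmall.and hwin)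
    set C₁ : ℝ := C + C * ‖u‖ * |D| * 2 ^ (ε / 2) with hC₁
    have hC₁0 : 0 ≤ C₁ := by positivity
    set T₂ : ℝ := max (max T₀ T₁) 10 with hT₂
    have hbig : ∀ T : ℝ, T₂ ≤ T → ‖riemannZeta (1 / 2 + T * Complex.I)‖ ≤ C₁ * (1 + T) ^ ε := by
      intro T hT
      have hTa : T₀ ≤ T := le_trans (le_trans (le_max_left _ _) (le_max_left _ _)) hT
      have hTb : T₁ ≤ T := le_trans (le_trans (le_max_right _ _) (le_max_left _ _)) hT
      have hTc : 10 ≤ T := le_trans (le_max_right _ _) hT
      obtain ⟨h1, h2⟩ := hT₁ T hTb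
      have hl0 : 0 ≤ Real.log T := Real.log_nonneg (by linarith)
      have e0 : (1 + T) ^ (ε / 2) * (1 + T) ^ (ε / 2) = (1 + T) ^ ε := by
        rw [← Real.rpow_add (by linarith), add_halves]
      have h3 : Real.log T ≤ (1 + T) ^ (ε / 2) :=
        h1.trans (Real.rpow_le_rpow (by linarith) (by linarith) (by positivity))
      have h4 : 1 ≤ (1 + T) ^ (ε / 2) := Real.one_le_rpow (by linarith) (by positivity)
      have h5 : (1 + T) ^ (ε / 2) ≤ (1 + T) ^ ε := by
        rw [← e0]; nlinarith
      have h6 : 0 ≤ C * ‖u‖ * |D| * 2 ^ (ε / 2) := by positivity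
      rcases lt_or_ge ‖riemannZeta (1 / 2 + T * Complex.I)‖ (C * Real.log T) with h7 | h7
      · calc ‖riemannZeta (1 / 2 + T * Complex.I)‖ ≤ C * Real.log T := h7.le
          _ ≤ C * (1 + T) ^ ε := mul_le_mul_of_nonneg_left (h3.trans h5) hC.le
          _ ≤ C₁ * (1 + T) ^ ε := mul_le_mul_of_nonneg_right (by linarith) (by positivity)
      · obtain ⟨v, r, hv, hr, hb⟩ := hdir T hTa u' hu'n h7
        have hv' := abs_le.1 (hv.trans h2)
        have e1 : ((r / ‖u‖ : ℝ) : ℂ) * u = r * u' := by
          rw [hu']; push_cast; field_simp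
        have h8 := hD v (r / ‖u‖) (by linarith [hv'.1]) (by rw [e1]; exact hr)
        rw [div_le_iff₀ hu0] at h8
        have h9 : (1 + v) ^ (ε / 2) ≤ 2 ^ (ε / 2) * (1 + T) ^ (ε / 2) := by
          rw [← Real.mul_rpow (by norm_num) (by linarith)]
          exact Real.rpow_le_rpow (by linarith [hv'.1]) (by linarith [hv'.2]) (by positivity)
        have h10 : 0 ≤ (1 + v) ^ (ε / 2) := Real.rpow_nonneg (by linarith [hv'.1]) _
        have h11 : r ≤ |D| * (2 ^ (ε / 2) * (1 + T) ^ (ε / 2)) * ‖u‖ := by
          refine h8.trans (mul_le_mul_of_nonneg_right ?_ hu0.le)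
          exact (mul_le_mul_of_nonneg_right (le_abs_self D) h10).trans
            (mul_le_mul_of_nonneg_left h9 (abs_nonneg D))
        have h12 : C * Real.log T * r ≤
            C * (1 + T) ^ (ε / 2) * (|D| * (2 ^ (ε / 2) * (1 + T) ^ (ε / 2)) * ‖u‖) := by
          calc C * Real.log T * r ≤ C * Real.log T *
                (|D| * (2 ^ (ε / 2) * (1 + T) ^ (ε / 2)) * ‖u‖) :=
                mul_le_mul_of_nonneg_left h11 (by positivity)
            _ ≤ _ := by
              apply mul_le_mul_of_nonneg_right _ (by positivity)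
              exact mul_le_mul_of_nonneg_left h3 hC.le
        calc ‖riemannZeta (1 / 2 + T * Complex.I)‖ ≤ C * Real.log T * r := hb
          _ ≤ _ := h12
          _ = (C * ‖u‖ * |D| * 2 ^ (ε / 2)) * ((1 + T) ^ (ε / 2) * (1 + T) ^ (ε / 2)) := by ring
          _ = (C * ‖u‖ * |D| * 2 ^ (ε / 2)) * (1 + T) ^ ε := by rw [e0]
          _ ≤ C₁ * (1 + T) ^ ε := mul_le_mul_of_nonneg_right (by linarith) (by positivity)
    -- symmetry and compactness
    have hsym : ∀ t : ℝ, ‖riemannZeta (1 / 2 + t * Complex.I)‖ =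
        ‖riemannZeta (1 / 2 + ((|t| : ℝ) : ℂ) * Complex.I)‖ := by
      intro t
      rcases le_total 0 t with h1 | h1
      · rw [abs_of_nonneg h1]
      · rw [abs_of_nonpos h1]
        have e : (1 / 2 + ((-t : ℝ) : ℂ) * Complex.I) =
            (starRingEnd ℂ) (1 / 2 + (t : ℂ) * Complex.I) := by
          apply Complex.ext <;> simp
        rw [e, riemannZeta_conj, Complex.norm_conj]
    have hcont : Continuous (fun t : ℝ => ‖riemannZeta (1 / 2 + t * Complex.I)‖) := by
      refine continuous_iff_continuousAt.2 fun t => ?_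
      have h1 : DifferentiableAt ℂ riemannZeta (1 / 2 + t * Complex.I) := by
        apply differentiableAt_riemannZeta
        intro h
        have := congrArg Complex.re h
        simp at this
      exact (ContinuousAt.comp (f := fun t : ℝ => (1 / 2 + (t : ℂ) * Complex.I))
        h1.continuousAt (by fun_prop)).norm
    obtain ⟨B, hB⟩ := (isCompact_Icc (a := (0 : ℝ)) (b := T₂)).exists_bound_of_continuousOn
      hcont.continuousOn
    refine ⟨max C₁ B, fun t => ?_⟩
    rw [hsym t]
    have hbase : 1 ≤ (1 + |t|) ^ ε := Real.one_le_rpow (by linarith [abs_nonneg t]) hε.le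
    rcases le_or_gt T₂ |t| with h1 | h1
    · exact (hbig _ h1).trans (mul_le_mul_of_nonneg_right (le_max_left _ _) (by positivity))
    · have h2 := hB |t| ⟨abs_nonneg t, h1.le⟩
      rw [Real.norm_of_nonneg (norm_nonneg _)] at h2
      have h3 : 0 ≤ max C₁ B := le_trans hC₁0 (le_max_left _ _)
      calc ‖riemannZeta (1 / 2 + ((|t| : ℝ) : ℂ) * Complex.I)‖ ≤ B := h2
        _ ≤ max C₁ B := le_max_right _ _
        _ ≤ max C₁ B * (1 + |t|) ^ ε := le_mul_of_one_le_right h3 hbase

end Pool.Agent.Results.MP_4e5e8a_nt.RayValues
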