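import Pool.Agent.W186.SZ.Fin
import Pool.Agent.W45.SZ.CNT
import Pool.Agent.W723.SZ.LINE
import Pool.Agent.W240.SZ.Strip

set_option autoImplicit false

/-!
# MP_4e5e8a_nt: the Lindelof hypothesis and the zeros of `xi (s + h) + c xi (s - h)`

Let `|c| = 1` and `0 < h ≤ 1/2`. If the Riemann hypothesis holds then all zeros of
`xi (s + h) + c xi (s - h)` are on the critical line. We show that its zeros away from the critical line
number `o (log T)` in windows of bounded height at height `T` if and only if `zeta (1/2 + h + i t)`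
is `O (t ^ ε)` for every `ε > 0`. So the Lindelof hypothesis holds if and only if this is the case for
every `h` (or for arbitrarily small `h`). For `h = 0` and `c = 1` this is Backlund's criterion.

Proof. If the exponent of zeta is `0` on the line `1/2 + h` then, by convexity and the functional
equation, the logarithm of the size of the sum near the point `1/2 + r + i T` is at most
`(max |r| h + o(1)) (log T) / 2` plus that of the archimedean factor, and Jensen's formula on small discs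
along the horizontal segment from a point far to the right gives the count. Conversely few zeros off
the line make the sum large on one vertical side, so that it has the size `exp (h (log T) / 2)` on the
critical line, where both terms have the same absolute value; a lower bound for the cosine-like
combination on a strip and convexity give the size of each term.
-/

namespace Pool.Agent.Results.MP_4e5e8a_nt.ShiftedZeroCount

open Complex

/-- The Riemann xi function `s (s - 1) π ^ (- s / 2) Γ (s / 2) ζ (s) / 2`, an entire function. -/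
noncomputable def xi (s : ℂ) : ℂ := s * (s - 1) / 2 * completedRiemannZeta₀ s + 1 / 2

/-- For all positive `δ` and `ε` and all sufficiently large `T`: any finitely many zeros `s` of
`xi (s + h) + c xi (s - h)` with `|Re s - 1/2| ≥ δ` and `|Im s - T| ≤ 1` have total multiplicity
at most `ε log T`. -/
def FewZeros (c : ℂ) (h : ℝ) : Prop := ∀ δ ε : ℝ, 0 < δ → 0 < ε → ∃ T0 : ℝ, ∀ T : ℝ, T0 ≤ T →
  ∀ S : Finset ℂ, (∀ s ∈ S, xi (s + h) + c * xi (s - h) = 0 ∧ δ ≤ |s.re - 1 / 2| ∧ |s.im - T| ≤ 1) →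
    ∑ s ∈ S, (analyticOrderNatAt (fun s => xi (s + h) + c * xi (s - h)) s : ℝ) ≤ ε * Real.log T

/-- For every `ε > 0`: `|ζ(σ + i t)| ≤ C |t| ^ (μ + ε)` for all real `t` with `|t| ≥ 1`. -/
def Exponent (σ μ : ℝ) : Prop := ∀ ε : ℝ, 0 < ε → ∃ C : ℝ, ∀ t : ℝ, 1 ≤ |t| →
  ‖riemannZeta (σ + t * I)‖ ≤ C * |t| ^ (μ + ε)

/-- The Lindelof hypothesis. -/
def Lindelof : Prop := ∀ ε : ℝ, 0 < ε → ∃ C : ℝ, ∀ t : ℝ,
  ‖riemannZeta (1 / 2 + t * I)‖ ≤ C * (1 + |t|) ^ ε

theorem result :
    (∀ (c : ℂ) (h : ℝ), ‖c‖ = 1 → 0 ≤ c.im → 0 < h → h ≤ 1 / 2 →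
      (FewZeros c h ↔ Exponent (1 / 2 + h) 0)) ∧
    (∀ (c : ℂ) (h : ℝ), ‖c‖ = 1 → 0 < h → h ≤ 1 / 2 →
      (FewZeros c h ∧ FewZeros ((starRingEnd ℂ) c) h ↔ Exponent (1 / 2 + h) 0)) ∧
    (∀ c : ℂ, ‖c‖ = 1 → 0 ≤ c.im →
      (Lindelof ↔ ∀ h : ℝ, 0 < h → h ≤ 1 / 2 → FewZeros c h)) ∧
    (∀ c : ℂ, ‖c‖ = 1 → 0 ≤ c.im →
      (Lindelof ↔ ∀ η : ℝ, 0 < η → ∃ h : ℝ, 0 < h ∧ h < η ∧ h ≤ 1 / 2 ∧ FewZeros c h)) :=
  Pool.Agent.W186.SZ.main_of Pool.Agent.W45.SZ.cnt Pool.Agent.W723.SZ.line Pool.Agent.W240.SZ.strip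

end Pool.Agent.Results.MP_4e5e8a_nt.ShiftedZeroCount
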